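import Mathlib
import Pool.Agent.V11287.Mon
import Pool.Agent.Helper230.QBase

/-!
# MP_eab232_al, Q2: p-conjugacy is undecidable for some finite monadic confluent presentation

Two families of rules, `x_i c i → c` and `i w y_i → w`, read the same words from the two sides of a
cyclic word; every bad contact of letters is sent to a zero letter, which makes the system confluent.
The `p`-conjugacy of `α z c β` and `δ w K γ` encodes the solvability of
`z x_{i_1} ... x_{i_k} = y_{i_1} ... y_{i_k} K` for fixed lists of words `x_i`, `y_i`.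
-/

set_option autoImplicit false

namespace Pool.Agent.Results.MP_eab232_al.MonadicPConj

/-- One rewriting step `u x v → u y v` with a rule `(x, y)` of the rewriting system `R`. -/
def Step {A : Type} (R : Set (List A × List A)) (p q : List A) : Prop :=
  ∃ u v x y, (x, y) ∈ R ∧ p = u ++ x ++ v ∧ q = u ++ y ++ v

/-- `p →* q`: the reflexive-transitive closure of the rewriting steps. -/
def Red {A : Type} (R : Set (List A × List A)) : List A → List A → Prop :=
  Relation.ReflTransGen (Step R)

/-- Monadic systems: the right-hand sides are letters or the empty word, and shorter than the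
left-hand sides. -/
def IsMonadic {A : Type} (R : Set (List A × List A)) : Prop :=
  ∀ x y, (x, y) ∈ R → y.length ≤ 1 ∧ y.length < x.length

/-- Confluent systems. -/
def IsConfluent {A : Type} (R : Set (List A × List A)) : Prop :=
  ∀ u v w, Red R u v → Red R u w → ∃ z, Red R v z ∧ Red R w z

/-- The monoid `M(A; R)`: the quotient of the free monoid by the smallest congruence containing
`R`. -/
abbrev Mon {A : Type} (R : Set (List A × List A)) : Type :=
  PresentedMonoid (fun x y : FreeMonoid A => (x.toList, y.toList) ∈ R)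

/-- The class in `M(A; R)` of a word. -/
def cls {A : Type} (R : Set (List A × List A)) (x : List A) : Mon R :=
  PresentedMonoid.mk (fun x y : FreeMonoid A => (x.toList, y.toList) ∈ R) (FreeMonoid.ofList x)

/-- `p`-conjugacy in a monoid: `a = u v` and `b = v u` for some `u` and `v`. -/
def PConj {M : Type} [Monoid M] (a b : M) : Prop := ∃ u v : M, a = u * v ∧ b = v * u

/-! ### generalities -/

section general

variable {A : Type} {R : Set (List A × List A)}

lemma Step.append {x y : List A} (h : Step R x y) (u v : List A) :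
    Step R (u ++ x ++ v) (u ++ y ++ v) := by
  obtain ⟨u', v', l, r, hr, rfl, rfl⟩ := h
  exact ⟨u ++ u', v' ++ v, l, r, hr, by simp, by simp⟩

lemma Red.append {x y : List A} (h : Red R x y) (u v : List A) :
    Red R (u ++ x ++ v) (u ++ y ++ v) := by
  induction h with
  | refl => exact Relation.ReflTransGen.refl
  | tail _ hs ih => exact ih.tail (hs.append u v)

lemma cls_append (x y : List A) : cls R (x ++ y) = cls R x * cls R y := by
  unfold cls
  rw [← map_mul]
  rfl

lemma cls_step {x y : List A} (h : Step R x y) : cls R x = cls R y := by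
  obtain ⟨u', v', l, r, hr, rfl, rfl⟩ := h
  have h1 : cls R l = cls R r := PresentedMonoid.mk_eq_mk_of_rel hr
  simp only [cls_append, h1]

lemma cls_red {x y : List A} (h : Red R x y) : cls R x = cls R y := by
  induction h with
  | refl => rfl
  | tail _ hs ih => exact ih.trans (cls_step hs)

end general

open Pool.Agent.V11287.Mon Pool.Agent.V11287.Mon.Sy Pool.Agent.Helper230

variable {S : Type} {Φ : S → S → List S} {L : ℕ}

/-- the rules over the alphabet `Sy S` -/
def RR (Φ : S → S → List S) (L : ℕ) : Set (List (Sy S) × List (Sy S)) := {p | Rule Φ L p.1 p.2}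

lemma step_rule {l r : List (Sy S)} (h : Rule Φ L l r) (u v : List (Sy S)) :
    Red (RR Φ L) (u ++ l ++ v) (u ++ r ++ v) :=
  Relation.ReflTransGen.single ⟨u, v, l, r, h, rfl, rfl⟩

lemma step_rule' {l r : List (Sy S)} (h : Rule Φ L l r) (u : List (Sy S)) :
    Red (RR Φ L) (u ++ l) (u ++ r) := by
  simpa using step_rule h u []

lemma red_ze (x : List (Sy S)) : Red (RR Φ L) (x ++ [ze]) [ze] := by
  induction x using List.reverseRecOn with
  | nil => exact Relation.ReflTransGen.refl
  | append_singleton x b ih =>
    have h : Red (RR Φ L) (x ++ [b, ze]) (x ++ [ze]) := step_rule' (Rule.bad b ze (by simp)) x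
    have e : x ++ [b] ++ [ze] = x ++ [b, ze] := by simp
    rw [e]
    exact h.trans ih

lemma red_bad (st : List (Sy S)) (a : Sy S) (h : ok st a = false) :
    Red (RR Φ L) (st.reverse ++ [a]) [ze] := by
  cases st with
  | nil => simp [ok] at h
  | cons b st =>
    have h1 : Red (RR Φ L) (st.reverse ++ [b, a]) (st.reverse ++ [ze]) :=
      step_rule' (Rule.bad b a h) _
    have e : (b :: st).reverse ++ [a] = st.reverse ++ [b, a] := by simp
    rw [e]
    exact h1.trans (red_ze _)

lemma wt_spec (n : ℕ) (st : List (Sy S)) (h : wt n st = true) :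
    ∃ (τ : List S) (l : List (Sy S)), st = τ.map t ++ w :: l ∧ τ.length ≤ n := by
  induction n generalizing st with
  | zero =>
    cases st with
    | nil => simp [wt] at h
    | cons a st => cases a <;> simp_all [wt]
  | succ n ih =>
    cases st with
    | nil => simp [wt] at h
    | cons a st =>
      cases a with
      | w => exact ⟨[], st, by simp⟩
      | t s =>
        obtain ⟨τ, l, rfl, hl⟩ := ih st (by simpa [wt] using h)
        exact ⟨s :: τ, l, by simp, by simpa using hl⟩
      | _ => simp [wt] at h

lemma red_pushC (st : List (Sy S)) :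
    Red (RR Φ L) (st.reverse ++ [c]) (pushC L st).reverse := by
  unfold pushC
  split_ifs with h
  · rw [List.reverse_cons]
    exact Relation.ReflTransGen.refl
  · by_cases hok : ok st c = true
    · have hw : wt L st = true := by
        by_contra hcon
        exact h ⟨hok, by simpa using hcon⟩
      obtain ⟨τ, l, rfl, hl⟩ := wt_spec L st hw
      by_cases hτ : τ = []
      · subst hτ
        exact red_bad _ _ rfl
      · have h1 : Red (RR Φ L) (l.reverse ++ (w :: τ.reverse.map t ++ [c])) (l.reverse ++ [ze]) :=
          step_rule' (Rule.wtc τ.reverse (by simpa using hτ) (by simpa using hl)) _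
        have e : (τ.map t ++ w :: l).reverse ++ [c]
            = l.reverse ++ (w :: τ.reverse.map t ++ [c]) := by simp
        rw [e]
        exact h1.trans (red_ze _)
    · exact red_bad _ _ (by simpa using hok)

lemma red_pushW (st : List (Sy S)) :
    Red (RR Φ L) (st.reverse ++ [w]) (pushW st).reverse := by
  unfold pushW
  split_ifs with h
  · rw [List.reverse_cons]
    exact Relation.ReflTransGen.refl
  · exact red_bad _ _ (by simpa using h)

lemma red_refl_cons (st : List (Sy S)) (a : Sy S) :
    Red (RR Φ L) (st.reverse ++ [a]) (a :: st).reverse := by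
  rw [List.reverse_cons]
  exact Relation.ReflTransGen.refl

lemma red_stp (st : List (Sy S)) (a : Sy S) :
    Red (RR Φ L) (st.reverse ++ [a]) (stp Φ L st a).reverse := by
  unfold stp
  split_ifs with hok
  swap
  · exact red_bad _ _ (by simpa using hok)
  cases a with
  | al =>
    simp only [push]
    split
    · rename_i st'
      have h1 : Red (RR Φ L) (st'.reverse ++ [be, al]) (st'.reverse ++ [w]) :=
        step_rule' Rule.ba _
      have e : (be :: st').reverse ++ [al] = st'.reverse ++ [be, al] := by simp
      rw [e]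
      exact h1.trans (red_pushW _)
    · exact red_refl_cons _ _
  | be => exact red_refl_cons _ _
  | ga => exact red_refl_cons _ _
  | de =>
    simp only [push]
    split
    · rename_i st'
      have h1 : Red (RR Φ L) (st'.reverse ++ [ga, de]) (st'.reverse ++ [c]) :=
        step_rule' Rule.gd _
      have e : (ga :: st').reverse ++ [de] = st'.reverse ++ [ga, de] := by simp
      rw [e]
      exact h1.trans (red_pushC _)
    · exact red_refl_cons _ _
  | c => exact red_pushC _
  | w => exact red_refl_cons _ _
  | ze => exact red_refl_cons _ _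
  | t s =>
    simp only [push]
    split
    · rename_i a a' b' st'
      split_ifs with h
      · obtain ⟨rfl, rfl⟩ := h
        have h1 : Red (RR Φ L) (st'.reverse ++ [i a s, w, t a, t s]) (st'.reverse ++ [w]) :=
          step_rule' (Rule.iwy a s) _
        have e : (t a :: w :: i a s :: st').reverse ++ [t s]
            = st'.reverse ++ [i a s, w, t a, t s] := by simp
        rw [e]
        exact h1.trans (red_pushW _)
      · exact red_refl_cons _ _
    · exact red_refl_cons _ _
  | i p q =>
    simp only [push]
    split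
    · rename_i st'
      split_ifs with h
      · obtain ⟨l, rfl⟩ := h
        have h1 : Red (RR Φ L) (l.reverse ++ ((Φ p q).map t ++ [c, i p q])) (l.reverse ++ [c]) :=
          step_rule' (Rule.xci p q) _
        have e : (c :: (((Φ p q).map t).reverse ++ l)).reverse ++ [i p q]
            = l.reverse ++ ((Φ p q).map t ++ [c, i p q]) := by simp
        rw [e, List.drop_left' (by simp)]
        exact h1.trans (red_pushC _)
      · exact red_refl_cons _ _
    · exact red_refl_cons _ _

lemma red_run (l st : List (Sy S)) : Red (RR Φ L) (st.reverse ++ l) (run Φ L st l).reverse := by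
  induction l generalizing st with
  | nil =>
    rw [List.append_nil]
    exact Relation.ReflTransGen.refl
  | cons a l ih =>
    have h1 := (red_stp (Φ := Φ) (L := L) st a).append [] l
    simp only [List.nil_append] at h1
    have e : st.reverse ++ a :: l = st.reverse ++ [a] ++ l := by simp
    rw [e]
    exact h1.trans (ih _)

lemma red_nf (l : List (Sy S)) : Red (RR Φ L) l (run Φ L [] l).reverse := by
  simpa using red_run (Φ := Φ) (L := L) l []

lemma run_step (hL : 1 ≤ L) (hΦ : ∀ a b, (Φ a b).length + 1 ≤ L) {x y : List (Sy S)}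
    (h : Step (RR Φ L) x y) (st : List (Sy S)) : run Φ L st x = run Φ L st y := by
  obtain ⟨u, v, l, r, hr, rfl, rfl⟩ := h
  simp only [run_append]
  rw [run_rule hL hΦ hr]

lemma run_red (hL : 1 ≤ L) (hΦ : ∀ a b, (Φ a b).length + 1 ≤ L) {x y : List (Sy S)}
    (h : Red (RR Φ L) x y) (st : List (Sy S)) : run Φ L st x = run Φ L st y := by
  induction h with
  | refl => rfl
  | tail _ hs ih => exact ih.trans (run_step hL hΦ hs st)

lemma confluent (hL : 1 ≤ L) (hΦ : ∀ a b, (Φ a b).length + 1 ≤ L) : IsConfluent (RR Φ L) := by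
  intro u v x h1 h2
  refine ⟨(run Φ L [] u).reverse, ?_, ?_⟩
  · rw [run_red hL hΦ h1]
    exact red_nf v
  · rw [run_red hL hΦ h2]
    exact red_nf x

/-! ### the ancestors of the two words -/

/-- the index letters `i_k ... i_1` -/
def ix (p : List (S × S)) : List (Sy S) := (p.reverse).map (fun a => i a.1 a.2)

/-- `α z c β` -/
def awd (z : List S) : List (Sy S) := al :: z.map t ++ c :: [be]

/-- `δ w K γ` -/
def bwd (K : S) : List (Sy S) := [de, w, t K, ga]

lemma notMem_ix {x : Sy S} (hx : ∀ a b, x ≠ i a b) (p : List (S × S)) : x ∉ ix p := by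
  intro h
  simp only [ix, List.mem_map] at h
  obtain ⟨a, -, ha⟩ := h
  exact hx _ _ ha.symm

lemma notMem_t {x : Sy S} (hx : ∀ a, x ≠ t a) (p : List S) : x ∉ p.map t := by
  intro h
  simp only [List.mem_map] at h
  obtain ⟨a, -, ha⟩ := h
  exact hx _ ha.symm

def A1 (Φ : S → S → List S) (z : List S) (p : List (S × S)) : List (Sy S) :=
  (al :: (z ++ flatΦ Φ p).map t) ++ c :: (ix p ++ [be])

def A2 (Φ : S → S → List S) (z : List S) (p : List (S × S)) : List (Sy S) :=
  (al :: (z ++ flatΦ Φ p).map t ++ [ga]) ++ de :: (ix p ++ [be])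

def B1 (K : S) (p : List (S × S)) : List (Sy S) :=
  (de :: ix p) ++ w :: ((flat2 p ++ [K]).map t ++ [ga])

def B2 (K : S) (p : List (S × S)) : List (Sy S) :=
  (de :: ix p) ++ be :: (al :: (flat2 p ++ [K]).map t ++ [ga])

lemma c_notMem_t (p : List S) : (c : Sy S) ∉ p.map t := notMem_t (by simp) p
lemma w_notMem_t (p : List S) : (w : Sy S) ∉ p.map t := notMem_t (by simp) p
lemma ze_notMem_t (p : List S) : (ze : Sy S) ∉ p.map t := notMem_t (by simp) p
lemma de_notMem_t (p : List S) : (de : Sy S) ∉ p.map t := notMem_t (by simp) p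
lemma be_notMem_t (p : List S) : (be : Sy S) ∉ p.map t := notMem_t (by simp) p
lemma c_notMem_ix (p : List (S × S)) : (c : Sy S) ∉ ix p := notMem_ix (by simp) p
lemma w_notMem_ix (p : List (S × S)) : (w : Sy S) ∉ ix p := notMem_ix (by simp) p
lemma ze_notMem_ix (p : List (S × S)) : (ze : Sy S) ∉ ix p := notMem_ix (by simp) p
lemma de_notMem_ix (p : List (S × S)) : (de : Sy S) ∉ ix p := notMem_ix (by simp) p
lemma be_notMem_ix (p : List (S × S)) : (be : Sy S) ∉ ix p := notMem_ix (by simp) p

lemma w_notMem_A1 (z : List S) (p : List (S × S)) : w ∉ A1 Φ z p := by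
  simp only [A1, List.cons_append, List.mem_cons, List.mem_append, List.not_mem_nil, or_false,
    reduceCtorEq, false_or, not_or]
  exact ⟨w_notMem_t _, w_notMem_ix _⟩

lemma ze_notMem_A1 (z : List S) (p : List (S × S)) : ze ∉ A1 Φ z p := by
  simp only [A1, List.cons_append, List.mem_cons, List.mem_append, List.not_mem_nil, or_false,
    reduceCtorEq, false_or, not_or]
  exact ⟨ze_notMem_t _, ze_notMem_ix _⟩

lemma w_notMem_A2 (z : List S) (p : List (S × S)) : w ∉ A2 Φ z p := by
  simp only [A2, List.cons_append, List.mem_cons, List.mem_append, List.not_mem_nil, or_false,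
    reduceCtorEq, false_or, not_or]
  exact ⟨w_notMem_t _, w_notMem_ix _⟩

lemma ze_notMem_A2 (z : List S) (p : List (S × S)) : ze ∉ A2 Φ z p := by
  simp only [A2, List.cons_append, List.mem_cons, List.mem_append, List.not_mem_nil, or_false,
    reduceCtorEq, false_or, not_or]
  exact ⟨ze_notMem_t _, ze_notMem_ix _⟩

lemma c_notMem_A2 (z : List S) (p : List (S × S)) : c ∉ A2 Φ z p := by
  simp only [A2, List.cons_append, List.mem_cons, List.mem_append, List.not_mem_nil, or_false,
    reduceCtorEq, false_or, not_or]
  exact ⟨c_notMem_t _, c_notMem_ix _⟩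

lemma c_notMem_B1 (K : S) (p : List (S × S)) : c ∉ B1 K p := by
  simp only [B1, List.cons_append, List.mem_cons, List.mem_append, List.not_mem_nil, or_false,
    reduceCtorEq, false_or, not_or]
  exact ⟨c_notMem_ix _, c_notMem_t _⟩

lemma ze_notMem_B1 (K : S) (p : List (S × S)) : ze ∉ B1 K p := by
  simp only [B1, List.cons_append, List.mem_cons, List.mem_append, List.not_mem_nil, or_false,
    reduceCtorEq, false_or, not_or]
  exact ⟨ze_notMem_ix _, ze_notMem_t _⟩

lemma c_notMem_B2 (K : S) (p : List (S × S)) : c ∉ B2 K p := by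
  simp only [B2, List.cons_append, List.mem_cons, List.mem_append, List.not_mem_nil, or_false,
    reduceCtorEq, false_or, not_or]
  exact ⟨c_notMem_ix _, c_notMem_t _⟩

lemma w_notMem_B2 (K : S) (p : List (S × S)) : w ∉ B2 K p := by
  simp only [B2, List.cons_append, List.mem_cons, List.mem_append, List.not_mem_nil, or_false,
    reduceCtorEq, false_or, not_or]
  exact ⟨w_notMem_ix _, w_notMem_t _⟩

lemma ze_notMem_B2 (K : S) (p : List (S × S)) : ze ∉ B2 K p := by
  simp only [B2, List.cons_append, List.mem_cons, List.mem_append, List.not_mem_nil, or_false,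
    reduceCtorEq, false_or, not_or]
  exact ⟨ze_notMem_ix _, ze_notMem_t _⟩

lemma ix_snoc (p : List (S × S)) (a b : S) : ix (p ++ [(a, b)]) = i a b :: ix p := by
  simp [ix]

lemma ix_cons (p : List (S × S)) (a b : S) : ix ((a, b) :: p) = ix p ++ [i a b] := by
  simp [ix]

lemma rhs_cases {l r : List (Sy S)} (h : Rule Φ L l r) :
    r = [c] ∨ r = [w] ∨ r = [ze] := by
  cases h <;> simp

/-- predecessors of `A1`, `A2` -/
lemma pred_A {z : List S} {X Y : List (Sy S)} (h : Step (RR Φ L) X Y)
    (hY : (∃ p, Y = A1 Φ z p) ∨ ∃ p, Y = A2 Φ z p) :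
    (∃ p, X = A1 Φ z p) ∨ ∃ p, X = A2 Φ z p := by
  obtain ⟨u, v, l, r, hr, rfl, rfl⟩ := h
  have hr' : Rule Φ L l r := hr
  have hmem : ∀ x, r = [x] → x ∈ u ++ r ++ v := by
    rintro x rfl
    simp
  rcases rhs_cases hr' with rfl | rfl | rfl
  · rcases hY with ⟨p, hp⟩ | ⟨p, hp⟩
    · rw [List.append_assoc, List.singleton_append, A1] at hp
      obtain ⟨h1, -, h2⟩ := (List.append_cons_inj_of_notMem (by
        simp only [List.mem_cons, reduceCtorEq, false_or]
        exact c_notMem_t _) (by
        simp only [List.mem_append, List.mem_cons, List.not_mem_nil, or_false, reduceCtorEq]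
        exact c_notMem_ix _)).1 hp.symm
      subst h1 h2
      cases hr' with
      | gd =>
        right
        exact ⟨p, by simp [A2]⟩
      | xci a b =>
        left
        exact ⟨p ++ [(a, b)], by simp [A1, flatΦ, ix_snoc]⟩
    · exfalso
      have := hmem c rfl
      rw [hp] at this
      exact c_notMem_A2 _ _ this
  · exfalso
    have := hmem w rfl
    rcases hY with ⟨p, hp⟩ | ⟨p, hp⟩ <;> rw [hp] at this
    · exact w_notMem_A1 _ _ this
    · exact w_notMem_A2 _ _ this
  · exfalso
    have := hmem ze rfl
    rcases hY with ⟨p, hp⟩ | ⟨p, hp⟩ <;> rw [hp] at this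
    · exact ze_notMem_A1 _ _ this
    · exact ze_notMem_A2 _ _ this

/-- predecessors of `B1`, `B2` -/
lemma pred_B {K : S} {X Y : List (Sy S)} (h : Step (RR Φ L) X Y)
    (hY : (∃ p, Y = B1 K p) ∨ ∃ p, Y = B2 K p) :
    (∃ p, X = B1 K p) ∨ ∃ p, X = B2 K p := by
  obtain ⟨u, v, l, r, hr, rfl, rfl⟩ := h
  have hr' : Rule Φ L l r := hr
  have hmem : ∀ x, r = [x] → x ∈ u ++ r ++ v := by
    rintro x rfl
    simp
  rcases rhs_cases hr' with rfl | rfl | rfl
  · exfalso
    have := hmem c rfl
    rcases hY with ⟨p, hp⟩ | ⟨p, hp⟩ <;> rw [hp] at this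
    · exact c_notMem_B1 _ _ this
    · exact c_notMem_B2 _ _ this
  · rcases hY with ⟨p, hp⟩ | ⟨p, hp⟩
    · rw [List.append_assoc, List.singleton_append, B1] at hp
      obtain ⟨h1, -, h2⟩ := (List.append_cons_inj_of_notMem (by
        simp only [List.mem_cons, reduceCtorEq, false_or]
        exact w_notMem_ix _) (by
        simp only [List.mem_append, List.mem_cons, List.not_mem_nil, or_false, reduceCtorEq]
        exact w_notMem_t _)).1 hp.symm
      subst h1 h2
      cases hr' with
      | ba =>
        right
        exact ⟨p, by simp [B2]⟩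
      | iwy a b =>
        left
        exact ⟨(a, b) :: p, by simp [B1, flat2, ix_cons]⟩
    · exfalso
      have := hmem w rfl
      rw [hp] at this
      exact w_notMem_B2 _ _ this
  · exfalso
    have := hmem ze rfl
    rcases hY with ⟨p, hp⟩ | ⟨p, hp⟩ <;> rw [hp] at this
    · exact ze_notMem_B1 _ _ this
    · exact ze_notMem_B2 _ _ this

lemma anc_A {z : List S} {X : List (Sy S)} (h : Red (RR Φ L) X (awd z)) :
    (∃ p, X = A1 Φ z p) ∨ ∃ p, X = A2 Φ z p := by
  induction h using Relation.ReflTransGen.head_induction_on with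
  | refl => exact Or.inl ⟨[], by simp [A1, awd, flatΦ, ix]⟩
  | head hs _ ih => exact pred_A hs ih

lemma anc_B {K : S} {X : List (Sy S)} (h : Red (RR Φ L) X (bwd K)) :
    (∃ p, X = B1 K p) ∨ ∃ p, X = B2 K p := by
  induction h using Relation.ReflTransGen.head_induction_on with
  | refl => exact Or.inl ⟨[], by simp [B1, bwd, flat2, ix]⟩
  | head hs _ ih => exact pred_B hs ih

lemma ix_inj {p q : List (S × S)} (h : ix p = ix q) : p = q := by
  unfold ix at h
  have h1 : p.reverse = q.reverse := by
    refine List.map_injective_iff.2 ?_ h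
    rintro ⟨a, b⟩ ⟨a', b'⟩ hab
    simp only [Sy.i.injEq] at hab
    rw [hab.1, hab.2]
  exact List.reverse_injective h1

/-- the decisive direction -/
lemma extract {z : List S} {K : S} {u v : List (Sy S)} (h1 : Red (RR Φ L) (u ++ v) (awd z))
    (h2 : Red (RR Φ L) (v ++ u) (bwd K)) : ∃ p, z ++ flatΦ Φ p = flat2 p ++ [K] := by
  have hc : c ∉ v ++ u := by
    rcases anc_B h2 with ⟨p, hp⟩ | ⟨p, hp⟩ <;> rw [hp]
    · exact c_notMem_B1 _ _
    · exact c_notMem_B2 _ _
  have hc' : c ∉ u ++ v := by
    rw [List.mem_append] at hc ⊢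
    tauto
  rcases anc_A h1 with ⟨p, hp⟩ | ⟨p, hp⟩
  · exfalso
    rw [hp] at hc'
    apply hc'
    simp [A1]
  have hw' : w ∉ v ++ u := by
    have hw : w ∉ u ++ v := by
      rw [hp]
      exact w_notMem_A2 _ _
    rw [List.mem_append] at hw ⊢
    tauto
  rcases anc_B h2 with ⟨q, hq⟩ | ⟨q, hq⟩
  · exfalso
    rw [hq] at hw'
    apply hw'
    simp [B1]
  -- `v` starts with `δ`
  cases v with
  | nil =>
    exfalso
    simp only [List.append_nil, List.nil_append] at hp hq
    rw [hp] at hq
    simp [A2, B2] at hq
  | cons x v =>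
    have hx : x = de := by
      simp only [B2, List.cons_append, List.cons.injEq] at hq
      exact hq.1
    subst hx
    rw [A2] at hp
    obtain ⟨e1, -, e2⟩ := (List.append_cons_inj_of_notMem (by
      simp only [List.cons_append, List.mem_append, List.mem_cons, List.not_mem_nil, or_false,
        reduceCtorEq, false_or]
      exact de_notMem_t _) (by
      simp only [List.mem_append, List.mem_cons, List.not_mem_nil, or_false, reduceCtorEq]
      exact de_notMem_ix _)).1 hp.symm
    subst e1 e2
    have hq2 : (de :: ix q) ++ be :: (al :: (flat2 q ++ [K]).map t ++ [ga])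
        = (de :: ix p) ++ be :: (al :: (z ++ flatΦ Φ p).map t ++ [ga]) := by
      rw [← B2, ← hq]
      simp
    obtain ⟨e1, -, e2⟩ := (List.append_cons_inj_of_notMem (by
      simp only [List.mem_cons, reduceCtorEq, false_or]
      exact be_notMem_ix _) (by
      simp only [List.cons_append, List.mem_append, List.mem_cons, List.not_mem_nil, or_false,
        reduceCtorEq, false_or]
      exact be_notMem_t _)).1 hq2
    have e3 : q = p := ix_inj (List.cons.inj e1).2
    subst e3
    have e4 : (flat2 q ++ [K]).map (t : S → Sy S) = (z ++ flatΦ Φ q).map t := by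
      have := (List.cons.inj e2).2
      exact List.append_left_injective _ this
    have e5 : flat2 q ++ [K] = z ++ flatΦ Φ q :=
      List.map_injective_iff.2 (fun a b hab => by simpa using hab) e4
    exact ⟨q, e5.symm⟩

/-- the words `u = α W γ` and `v = δ s β` -/
lemma construct_A (z : List S) (p : List (S × S)) :
    Red (RR Φ L) (A2 Φ z p) (awd z) := by
  have h0 : Red (RR Φ L) (A2 Φ z p) (A1 Φ z p) := by
    have := step_rule (Φ := Φ) (L := L) Rule.gd (al :: (z ++ flatΦ Φ p).map t) (ix p ++ [be])
    have e1 : A2 Φ z p = (al :: (z ++ flatΦ Φ p).map t) ++ [ga, de] ++ (ix p ++ [be]) := by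
      simp [A2]
    have e2 : A1 Φ z p = (al :: (z ++ flatΦ Φ p).map t) ++ [c] ++ (ix p ++ [be]) := by
      simp [A1]
    rw [e1, e2]
    exact this
  refine h0.trans ?_
  clear h0
  induction p using List.reverseRecOn with
  | nil =>
    have e : A1 Φ z [] = awd z := by simp [A1, awd, flatΦ, ix]
    rw [e]
  | append_singleton p a ih =>
    obtain ⟨a, b⟩ := a
    refine Relation.ReflTransGen.trans ?_ ih
    have := step_rule (Φ := Φ) (L := L) (Rule.xci a b) (al :: (z ++ flatΦ Φ p).map t)
      (ix p ++ [be])
    have e1 : A1 Φ z (p ++ [(a, b)]) = (al :: (z ++ flatΦ Φ p).map t)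
        ++ ((Φ a b).map t ++ [c, i a b]) ++ (ix p ++ [be]) := by
      simp [A1, ix_snoc, flatΦ]
    have e2 : A1 Φ z p = (al :: (z ++ flatΦ Φ p).map t) ++ [c] ++ (ix p ++ [be]) := by
      simp [A1]
    rw [e1, e2]
    exact this

lemma construct_B (K : S) (p : List (S × S)) :
    Red (RR Φ L) (B2 K p) (bwd K) := by
  have h0 : Red (RR Φ L) (B2 K p) (B1 K p) := by
    have := step_rule (Φ := Φ) (L := L) Rule.ba (de :: ix p) ((flat2 p ++ [K]).map t ++ [ga])
    have e1 : B2 K p = (de :: ix p) ++ [be, al] ++ ((flat2 p ++ [K]).map t ++ [ga]) := by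
      simp [B2]
    have e2 : B1 K p = (de :: ix p) ++ [w] ++ ((flat2 p ++ [K]).map t ++ [ga]) := by
      simp [B1]
    rw [e1, e2]
    exact this
  refine h0.trans ?_
  clear h0
  induction p with
  | nil =>
    have e : B1 K [] = bwd K := by simp [B1, bwd, flat2, ix]
    rw [e]
  | cons a p ih =>
    obtain ⟨a, b⟩ := a
    refine Relation.ReflTransGen.trans ?_ ih
    have := step_rule (Φ := Φ) (L := L) (Rule.iwy a b) (de :: ix p)
      ((flat2 p ++ [K]).map t ++ [ga])
    have e1 : B1 K ((a, b) :: p) = (de :: ix p) ++ [i a b, w, t a, t b]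
        ++ ((flat2 p ++ [K]).map t ++ [ga]) := by
      simp [B1, ix_cons, flat2]
    have e2 : B1 K p = (de :: ix p) ++ [w] ++ ((flat2 p ++ [K]).map t ++ [ga]) := by
      simp [B1]
    rw [e1, e2]
    exact this

lemma wt_al (n : ℕ) (τ : List S) (st : List (Sy S)) : wt n (τ.map t ++ al :: st) = false := by
  induction τ generalizing n with
  | nil => cases n <;> rfl
  | cons s τ ih =>
    cases n with
    | zero => rfl
    | succ n => simpa [wt] using ih n

lemma nf_awd (z : List S) : (run Φ L [] (awd z)).reverse = awd z := by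
  have h0 : stp Φ L [] al = [al] := by simp [stp, ok, push]
  have hg : Good ([al] : List (Sy S)) := Or.inr (Or.inl ⟨[], rfl⟩)
  have h1 : run Φ L [] (awd z) = be :: c :: ((z.map t).reverse ++ [al]) := by
    unfold awd
    rw [List.cons_append, run_cons, h0, run_append, good_run hg]
    simp only [run_cons, run_nil, stp_c]
    have h2 : pushC L ((z.map t).reverse ++ [al]) = c :: ((z.map t).reverse ++ [al]) := by
      unfold pushC
      rw [if_pos]
      refine ⟨?_, ?_⟩
      · rw [← List.map_reverse]
        exact ok_append_c _ _ hg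
      · rw [← List.map_reverse]
        exact wt_al _ _ _
    rw [h2]
    simp [stp, ok, legal, push]
  rw [h1]
  simp [awd]

lemma nf_bwd (K : S) : (run Φ L [] (bwd K)).reverse = bwd K := by
  have h1 : run Φ L [] (bwd K) = [ga, t K, w, de] := by
    unfold bwd
    simp [stp, ok, legal, push]
  rw [h1]
  rfl


/-! ### the alphabet `Fin m` -/

lemma finite_Sy [Finite S] : Finite (Sy S) := by
  refine Finite.of_injective (β := Fin 7 ⊕ S ⊕ (S × S)) (fun x => match x with
    | al => Sum.inl 0
    | be => Sum.inl 1
    | ga => Sum.inl 2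
    | de => Sum.inl 3
    | c => Sum.inl 4
    | w => Sum.inl 5
    | ze => Sum.inl 6
    | t s => Sum.inr (Sum.inl s)
    | i a b => Sum.inr (Sum.inr (a, b))) ?_
  intro x y h
  cases x <;> cases y <;> simp_all

/-- the system over `Fin m` -/
def RF (Φ : S → S → List S) (L : ℕ) {m : ℕ} (e : Sy S ≃ Fin m) :
    Set (List (Fin m) × List (Fin m)) :=
  {p | Rule Φ L (p.1.map e.symm) (p.2.map e.symm)}

section transport

variable {m : ℕ} (e : Sy S ≃ Fin m)

lemma map_map (x : List (Fin m)) : (x.map e.symm).map e = x := by
  simp [List.map_map]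

lemma map_map' (x : List (Sy S)) : (x.map e).map e.symm = x := by
  simp [List.map_map]

lemma step_to {x y : List (Fin m)} (h : Step (RF Φ L e) x y) :
    Step (RR Φ L) (x.map e.symm) (y.map e.symm) := by
  obtain ⟨u, v, l, r, hr, rfl, rfl⟩ := h
  exact ⟨u.map e.symm, v.map e.symm, l.map e.symm, r.map e.symm, hr, by simp, by simp⟩

lemma step_of {x y : List (Sy S)} (h : Step (RR Φ L) x y) :
    Step (RF Φ L e) (x.map e) (y.map e) := by
  obtain ⟨u, v, l, r, hr, rfl, rfl⟩ := h
  refine ⟨u.map e, v.map e, l.map e, r.map e, ?_, by simp, by simp⟩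
  show Rule Φ L ((l.map e).map e.symm) ((r.map e).map e.symm)
  rw [map_map', map_map']
  exact hr

lemma red_to {x y : List (Fin m)} (h : Red (RF Φ L e) x y) :
    Red (RR Φ L) (x.map e.symm) (y.map e.symm) := by
  induction h with
  | refl => exact Relation.ReflTransGen.refl
  | tail _ hs ih => exact ih.tail (step_to e hs)

lemma red_of {x y : List (Sy S)} (h : Red (RR Φ L) x y) :
    Red (RF Φ L e) (x.map e) (y.map e) := by
  induction h with
  | refl => exact Relation.ReflTransGen.refl
  | tail _ hs ih => exact ih.tail (step_of e hs)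

lemma RF_confluent (hL : 1 ≤ L) (hΦ : ∀ a b, (Φ a b).length + 1 ≤ L) :
    IsConfluent (RF Φ L e) := by
  intro u v x h1 h2
  obtain ⟨z, hz1, hz2⟩ := confluent hL hΦ _ _ _ (red_to e h1) (red_to e h2)
  refine ⟨z.map e, ?_, ?_⟩
  · have := red_of e hz1
    rwa [map_map] at this
  · have := red_of e hz2
    rwa [map_map] at this

lemma RF_monadic : IsMonadic (RF Φ L e) := by
  intro x y h
  have h1 : Rule Φ L (x.map e.symm) (y.map e.symm) := h
  have h2 : ∀ l r : List (Sy S), Rule Φ L l r → r.length ≤ 1 ∧ r.length < l.length := by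
    intro l r h
    cases h <;> simp
  simpa using h2 _ _ h1

lemma RF_finite [Finite S] (hΦ : ∀ a b, (Φ a b).length + 1 ≤ L) : (RF Φ L e).Finite := by
  have h1 : (({x : List (Fin m) | x.length ≤ L + 4} ×ˢ {x : List (Fin m) | x.length ≤ 1})).Finite :=
    (List.finite_length_le _ _).prod (List.finite_length_le _ _)
  refine h1.subset ?_
  rintro ⟨x, y⟩ h
  have h1 : Rule Φ L (x.map e.symm) (y.map e.symm) := h
  have h2 : ∀ l r : List (Sy S), Rule Φ L l r → l.length ≤ L + 4 ∧ r.length ≤ 1 := by
    intro l r h
    cases h with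
    | gd => simp
    | xci a b =>
      have := hΦ a b
      simp only [List.length_append, List.length_map, List.length_cons, List.length_nil]
      omega
    | ba => simp
    | iwy a b => simp
    | bad x y h => simp
    | wtc τ h hL =>
      simp only [List.length_append, List.length_map, List.length_cons, List.length_nil]
      omega
  simpa using h2 _ _ h1

/-- words which are equal in the monoid have the same normal form -/
lemma run_cls (hL : 1 ≤ L) (hΦ : ∀ a b, (Φ a b).length + 1 ≤ L) {x y : List (Fin m)}
    (h : cls (RF Φ L e) x = cls (RF Φ L e) y) (st : List (Sy S)) :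
    run Φ L st (x.map e.symm) = run Φ L st (y.map e.symm) := by
  let C : Con (FreeMonoid (Fin m)) :=
    { r := fun x y => ∀ st : List (Sy S),
        run Φ L st (x.toList.map e.symm) = run Φ L st (y.toList.map e.symm)
      iseqv := ⟨fun _ _ => rfl, fun h st => (h st).symm, fun h1 h2 st => (h1 st).trans (h2 st)⟩
      mul' := by
        intro a b c d h1 h2 st
        simp only [FreeMonoid.toList_mul, List.map_append, run_append]
        rw [h1 st, h2] }
  have h1 : conGen (fun x y : FreeMonoid (Fin m) => (x.toList, y.toList) ∈ RF Φ L e) ≤ C := by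
    apply Con.conGen_le.2
    intro a b hab st
    have hab' : Rule Φ L (a.toList.map e.symm) (b.toList.map e.symm) := hab
    exact run_rule hL hΦ hab' st
  exact h1 (PresentedMonoid.mk_eq_mk_iff.1 h) st

theorem pconj_iff (hL : 1 ≤ L) (hΦ : ∀ a b, (Φ a b).length + 1 ≤ L) (z : List S) (K : S) :
    PConj (cls (RF Φ L e) ((awd z).map e)) (cls (RF Φ L e) ((bwd K).map e)) ↔
      ∃ p, z ++ flatΦ Φ p = flat2 p ++ [K] := by
  constructor
  · rintro ⟨u, v, h1, h2⟩
    obtain ⟨u, rfl⟩ := PresentedMonoid.surjective_mk u
    obtain ⟨v, rfl⟩ := PresentedMonoid.surjective_mk v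
    have h1' : cls (RF Φ L e) ((awd z).map e) = cls (RF Φ L e) (u.toList ++ v.toList) := by
      rw [cls_append]
      exact h1
    have h2' : cls (RF Φ L e) ((bwd K).map e) = cls (RF Φ L e) (v.toList ++ u.toList) := by
      rw [cls_append]
      exact h2
    have r1 := run_cls e hL hΦ h1' []
    have r2 := run_cls e hL hΦ h2' []
    rw [map_map'] at r1 r2
    have s1 : Red (RR Φ L) (u.toList.map e.symm ++ v.toList.map e.symm) (awd z) := by
      rw [← List.map_append]
      have := red_nf (Φ := Φ) (L := L) ((u.toList ++ v.toList).map e.symm)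
      rwa [← r1, nf_awd] at this
    have s2 : Red (RR Φ L) (v.toList.map e.symm ++ u.toList.map e.symm) (bwd K) := by
      rw [← List.map_append]
      have := red_nf (Φ := Φ) (L := L) ((v.toList ++ u.toList).map e.symm)
      rwa [← r2, nf_bwd] at this
    exact extract s1 s2
  · rintro ⟨p, hp⟩
    refine ⟨cls _ (((al :: (z ++ flatΦ Φ p).map t ++ [ga])).map e),
      cls _ ((de :: (ix p ++ [be])).map e), ?_, ?_⟩
    · rw [← cls_append, ← List.map_append]
      exact (cls_red (red_of e (construct_A z p))).symm
    · rw [← cls_append, ← List.map_append]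
      have e1 : de :: (ix p ++ [be]) ++ (al :: (z ++ flatΦ Φ p).map t ++ [ga]) = B2 K p := by
        simp only [B2]
        rw [hp]
        simp
      rw [e1]
      exact (cls_red (red_of e (construct_B K p))).symm

end transport

/-- **Negative answer to Q2.** There is a finite, monadic and confluent rewriting system `R` over a
finite alphabet such that no algorithm decides, given two words, whether their classes in the monoid
`M(Fin m; R)` are `p`-conjugate. -/
theorem result : ∃ (m : ℕ) (R : Set (List (Fin m) × List (Fin m))),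
    R.Finite ∧ IsMonadic R ∧ IsConfluent R ∧
      ¬ ComputablePred (fun x : List (Fin m) × List (Fin m) => PConj (cls R x.1) (cls R x.2)) := by
  obtain ⟨S, iS, Φ, K, z, hz, -, hno⟩ := exists_base
  haveI : Finite (Sy S) := finite_Sy
  obtain ⟨m, ⟨e⟩⟩ := Finite.exists_equiv_fin (Sy S)
  obtain ⟨L0, hL0⟩ : ∃ L0, ∀ a b, (Φ a b).length ≤ L0 := by
    obtain ⟨L0, hL0⟩ := (Set.finite_range (fun x : S × S => (Φ x.1 x.2).length)).bddAbove
    exact ⟨L0, fun a b => hL0 ⟨(a, b), rfl⟩⟩
  have hΦ : ∀ a b, (Φ a b).length + 1 ≤ L0 + 1 := fun a b => by have := hL0 a b; omega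
  refine ⟨m, RF Φ (L0 + 1) e, RF_finite e hΦ, RF_monadic e, RF_confluent e (by omega) hΦ, ?_⟩
  intro hdec
  apply hno
  have hm : 0 < m := by
    have := (e al).isLt
    omega
  -- the computable map
  let f : ℕ → Fin m := fun k => ⟨k % m, Nat.mod_lt _ hm⟩
  have hf : Primrec f := by
    rw [← Primrec.fin_val_iff]
    exact Primrec.nat_mod.comp Primrec.id (Primrec.const m)
  have hcomp : Computable (fun n => ((awd (z n)).map e, (bwd K).map e)) := by
    have h1 : Computable (fun n => ((z n).map (fun s => (e (t s)).val)).map f) := by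
      have h2 : Primrec (fun l : List ℕ => l.map f) :=
        Primrec.list_map Primrec.id (hf.comp Primrec.snd).to₂
      exact h2.to_comp.comp (hz _)
    have h2 : (fun n => (awd (z n)).map e) = fun n =>
        e al :: (((z n).map (fun s => (e (t s)).val)).map f ++ [e c, e be]) := by
      funext n
      simp only [awd, List.cons_append, List.map_cons, List.map_append, List.map_map,
        List.map_nil]
      congr 2
      apply List.map_congr_left
      intro s _
      simp only [Function.comp_apply, f]
      apply Fin.ext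
      simp [Nat.mod_eq_of_lt (e (t s)).isLt]
    have h3 : Computable (fun n => (awd (z n)).map e) := by
      rw [h2]
      exact Computable.list_cons.comp (Computable.const _)
        (Computable.list_append.comp h1 (Computable.const _))
    exact h3.pair (Computable.const _)
  have hrw : (fun n => ∃ p, z n ++ flatΦ Φ p = flat2 p ++ [K]) = fun n =>
      PConj (cls (RF Φ (L0 + 1) e) ((awd (z n)).map e)) (cls (RF Φ (L0 + 1) e) ((bwd K).map e)) := by
    funext n
    exact propext (pconj_iff e (by omega) hΦ (z n) K).symm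
  rw [hrw]
  obtain ⟨g, hg, hg'⟩ := ComputablePred.computable_iff.1 hdec
  apply ComputablePred.computable_iff.2
  refine ⟨fun n => g ((awd (z n)).map e, (bwd K).map e), hg.comp hcomp, ?_⟩
  funext n
  exact congrFun hg' ((awd (z n)).map e, (bwd K).map e)

end Pool.Agent.Results.MP_eab232_al.MonadicPConj
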